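import Pool.Agent.helper71.DSW.SpecB

/-!
# MP_a87880_co, row dsw:B1N
-/

set_option autoImplicit false

namespace Pool.Agent.DSW

open Equiv Finset Function Pool.Agent.helper48.PP
open scoped ENNReal Classical

theorem B1N_low (hPOS : POS_stmt) {L : ℕ} (g : Fin (L + 1) → ℕ) (s : Fin L → ℕ)
    (hs : StrictMono s) (i : Fin L) (h : ∀ j, j ≠ i → s j = pos g (j : ℕ)) :
    pos g (i : ℕ) - g i.castSucc ≤ s i := by
  obtain ⟨h0, h1, -⟩ := hPOS.1 L g
  by_cases hi : (i : ℕ) = 0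
  · have h2 : i.castSucc = 0 := Fin.ext hi
    rw [hi, h0, h2]
    omega
  · have hlt : (i : ℕ) - 1 < L := by have := i.2; omega
    set j : Fin L := ⟨(i : ℕ) - 1, hlt⟩ with hj
    have hji : j < i := by
      rw [Fin.lt_def]
      show (i : ℕ) - 1 < i
      omega
    have h2 := hs hji
    rw [h j hji.ne] at h2
    have h3 := h1 j
    have h4 : (j : ℕ) + 1 = (i : ℕ) := by
      show (i : ℕ) - 1 + 1 = i
      omega
    have h5 : j.succ = i.castSucc := Fin.ext h4
    rw [h4, h5] at h3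
    omega

theorem B1N_high (hPOS : POS_stmt) {L : ℕ} (g : Fin (L + 1) → ℕ) (s : Fin L → ℕ)
    (hs : StrictMono s) (hL : ∀ j, s j < pos g L) (i : Fin L)
    (h : ∀ j, j ≠ i → s j = pos g (j : ℕ)) :
    s i ≤ pos g (i : ℕ) + g i.succ := by
  obtain ⟨h0, h1, -⟩ := hPOS.1 L g
  have h3 := h1 i
  by_cases hi : (i : ℕ) + 1 < L
  · set j : Fin L := ⟨(i : ℕ) + 1, hi⟩ with hj
    have hij : i < j := by
      rw [Fin.lt_def]
      show (i : ℕ) < (i : ℕ) + 1
      omega
    have h2 := hs hij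
    rw [h j hij.ne'] at h2
    have h4 : (j : ℕ) = (i : ℕ) + 1 := rfl
    rw [h4] at h2
    omega
  · have h4 : (i : ℕ) + 1 = L := by have := i.2; omega
    have h5 := hL i
    rw [h4] at h3
    omega

/-- the possible new points in the block `u` -/
noncomputable def B1N_W {L : ℕ} (a c : Fin L → Fin (L + 1) → ℕ) (u : Fin L × Fin L) :
    Finset (ℕ × ℕ) :=
  (Finset.Ico (pos (a u.1) (u.2 : ℕ) - a u.1 u.2.castSucc) (pos (a u.1) (u.2 : ℕ)) ×ˢ
    Finset.Icc (pos (c u.2) (u.1 : ℕ) - c u.2 u.1.castSucc)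
      (pos (c u.2) (u.1 : ℕ) + c u.2 u.1.succ)) ∪
  ({pos (a u.1) (u.2 : ℕ)} ×ˢ
    Finset.Ico (pos (c u.2) (u.1 : ℕ) - c u.2 u.1.castSucc) (pos (c u.2) (u.1 : ℕ)))

theorem B1N_card {L : ℕ} (a c : Fin L → Fin (L + 1) → ℕ) (u : Fin L × Fin L) :
    (B1N_W a c u).card ≤ n1 a c u := by
  unfold B1N_W n1
  refine (Finset.card_union_le _ _).trans ?_
  rw [Finset.card_product, Finset.card_product, Nat.card_Ico, Nat.card_Icc, Nat.card_Ico,
    Finset.card_singleton, one_mul]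
  apply Nat.add_le_add
  · exact Nat.mul_le_mul (by omega) (by omega)
  · omega

theorem B1N_mem (hPOS : POS_stmt) {L : ℕ} (a c : Fin L → Fin (L + 1) → ℕ) (e' : Arr L)
    (u : Fin L × Fin L) (hm : Move (len a) (len c) (arr a c) e')
    (hu : mov (arr a c) e' = {u}) :
    (e'.1 u.1 u.2, e'.2 u.2 u.1) ∈ B1N_W a c u := by
  obtain ⟨hval, hbet, -, -⟩ := hm
  obtain ⟨hv1, hv2, hv3, hv4⟩ := hval
  have hfix : ∀ v : Fin L × Fin L, v ≠ u → cellAt e' v = cellAt (arr a c) v := by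
    intro v hv
    by_contra hne
    have h1 : v ∈ mov (arr a c) e' := by
      unfold mov
      exact Finset.mem_filter.2 ⟨Finset.mem_univ _, hne⟩
    rw [hu, Finset.mem_singleton] at h1
    exact hv h1
  have hf1 : ∀ j, j ≠ u.2 → e'.1 u.1 j = pos (a u.1) (j : ℕ) := by
    intro j hj
    have h1 := hfix (u.1, j) (fun h => hj (congrArg Prod.snd h))
    have h2 := congrArg (fun z : Cell L => z.2.1) h1
    exact h2
  have hf2 : ∀ j, j ≠ u.1 → e'.2 u.2 j = pos (c u.2) (j : ℕ) := by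
    intro j hj
    have h1 := hfix (j, u.2) (fun h => hj (congrArg Prod.fst h))
    have h2 := congrArg (fun z : Cell L => z.2.2) h1
    exact h2
  have hx1 := B1N_low hPOS (a u.1) (e'.1 u.1) (hv1 u.1) u.2 hf1
  have hy1 := B1N_low hPOS (c u.2) (e'.2 u.2) (hv2 u.2) u.1 hf2
  have hy2 := B1N_high hPOS (c u.2) (e'.2 u.2) (hv2 u.2) (hv4 u.2) u.1 hf2
  obtain ⟨w, -, hw⟩ := hbet
  have hwu : w = u := by
    by_contra hne
    have h1 := hfix w hne
    have h2 : e'.1 w.1 w.2 = (arr a c).1 w.1 w.2 := congrArg (fun z : Cell L => z.2.1) h1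
    have h3 : e'.2 w.2 w.1 = (arr a c).2 w.2 w.1 := congrArg (fun z : Cell L => z.2.2) h1
    rcases hw with h4 | ⟨_, h4⟩
    · exact absurd h2 h4.ne
    · exact absurd h3 h4.ne
  rw [hwu] at hw
  have ha : (arr a c).1 u.1 u.2 = pos (a u.1) (u.2 : ℕ) := rfl
  have hc : (arr a c).2 u.2 u.1 = pos (c u.2) (u.1 : ℕ) := rfl
  rw [ha, hc] at hw
  unfold B1N_W
  rw [Finset.mem_union, Finset.mem_product, Finset.mem_product, Finset.mem_Ico, Finset.mem_Icc,
    Finset.mem_singleton, Finset.mem_Ico]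
  rcases hw with h4 | ⟨h3, h4⟩
  · left
    exact ⟨⟨hx1, h4⟩, hy1, hy2⟩
  · right
    exact ⟨h3, hy1, h4⟩

theorem B1N (hPOS : POS_stmt) : B1N_stmt := by
  intro L a c
  have hsub : ((Bad (len a) (len c) (arr a c)).filter fun F => F.card = 1) ⊆
      Finset.univ.biUnion (fun u : Fin L × Fin L =>
        (B1N_W a c u).image (fun z => ({(u, z)} : Finset (Cell L)))) := by
    intro F hF
    obtain ⟨hB, hF1⟩ := Finset.mem_filter.1 hF
    unfold Bad at hB
    obtain ⟨-, e', hm, rfl⟩ := Finset.mem_filter.1 hB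
    have hinj : Function.Injective (cellAt e') := fun v w h => congrArg Prod.fst h
    rw [Finset.card_image_of_injective _ hinj, Finset.card_eq_one] at hF1
    obtain ⟨u, hu⟩ := hF1
    rw [Finset.mem_biUnion]
    refine ⟨u, Finset.mem_univ _, ?_⟩
    rw [Finset.mem_image]
    refine ⟨_, B1N_mem hPOS a c e' u hm hu, ?_⟩
    rw [hu, Finset.image_singleton]
    rfl
  refine (Finset.card_le_card hsub).trans (Finset.card_biUnion_le.trans ?_)
  apply Finset.sum_le_sum
  intro u _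
  exact Finset.card_image_le.trans (B1N_card a c u)

end Pool.Agent.DSW
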