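import Pool.Agent.helper71.DSW.SpecB

/-!
# MP_a87880_co, row dsw:FKG
-/

set_option autoImplicit false

namespace Pool.Agent.DSW

open Equiv Finset Function Pool.Agent.helper48.PP
open scoped ENNReal Classical

/-- the expectation of `f` for a random subset of `C` -/
noncomputable def FKG_E {γ : Type} (C : Finset γ) (p : ℝ) (f : Finset γ → ℝ) : ℝ :=
  ∑ S ∈ C.powerset, p ^ S.card * (1 - p) ^ (C.card - S.card) * f S

theorem FKG_Pr {γ : Type} (C : Finset γ) (p : ℝ) (A : Finset γ → Prop) :
    Pr C p A = FKG_E C p (fun S => if A S then 1 else 0) := by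
  unfold Pr FKG_E
  rw [Finset.sum_filter]
  apply Finset.sum_congr rfl
  intro S _
  by_cases h : A S
  · simp [h]
  · simp [h]

theorem FKG_empty {γ : Type} (p : ℝ) (f : Finset γ → ℝ) : FKG_E ∅ p f = f ∅ := by
  simp [FKG_E]

theorem FKG_insert {γ : Type} (C : Finset γ) (a : γ) (ha : a ∉ C) (p : ℝ) (f : Finset γ → ℝ) :
    FKG_E (insert a C) p f =
      (1 - p) * FKG_E C p f + p * FKG_E C p (fun S => f (insert a S)) := by
  unfold FKG_E
  rw [Finset.sum_powerset_insert ha, Finset.mul_sum, Finset.mul_sum]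
  congr 1
  · apply Finset.sum_congr rfl
    intro S hS
    have h1 : S ⊆ C := Finset.mem_powerset.1 hS
    have h2 : S.card ≤ C.card := Finset.card_le_card h1
    rw [Finset.card_insert_of_notMem ha]
    have h3 : C.card + 1 - S.card = (C.card - S.card) + 1 := by omega
    rw [h3, pow_succ]
    ring
  · apply Finset.sum_congr rfl
    intro S hS
    have h1 : S ⊆ C := Finset.mem_powerset.1 hS
    have h2 : a ∉ S := fun h => ha (h1 h)
    rw [Finset.card_insert_of_notMem ha, Finset.card_insert_of_notMem h2]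
    have h3 : C.card + 1 - (S.card + 1) = C.card - S.card := by omega
    rw [h3, pow_succ]
    ring

theorem FKG_congr {γ : Type} (C : Finset γ) (p : ℝ) (f g : Finset γ → ℝ)
    (h : ∀ S ⊆ C, f S = g S) : FKG_E C p f = FKG_E C p g := by
  unfold FKG_E
  apply Finset.sum_congr rfl
  intro S hS
  rw [h S (Finset.mem_powerset.1 hS)]

theorem FKG_mono {γ : Type} (C : Finset γ) (p : ℝ) (hp : 0 ≤ p) (hp1 : p ≤ 1)
    (f g : Finset γ → ℝ) (h : ∀ S, f S ≤ g S) : FKG_E C p f ≤ FKG_E C p g := by
  unfold FKG_E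
  apply Finset.sum_le_sum
  intro S _
  apply mul_le_mul_of_nonneg_left (h S)
  have h1 : 0 ≤ 1 - p := by linarith
  positivity

theorem FKG_zero {γ : Type} (C : Finset γ) (p : ℝ) : FKG_E C p (fun _ => 0) = 0 := by
  simp [FKG_E]

theorem FKG_harris {γ : Type} (C : Finset γ) (p : ℝ) (hp : 0 ≤ p) (hp1 : p ≤ 1) :
    ∀ f g : Finset γ → ℝ, (∀ S S', S ⊆ S' → f S' ≤ f S) → (∀ S S', S ⊆ S' → g S' ≤ g S) →
    FKG_E C p f * FKG_E C p g ≤ FKG_E C p (fun S => f S * g S) := by
  induction C using Finset.induction_on with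
  | empty =>
    intro f g _ _
    rw [FKG_empty, FKG_empty, FKG_empty]
  | insert a C ha ih =>
    intro f g hf hg
    rw [FKG_insert C a ha, FKG_insert C a ha, FKG_insert C a ha]
    have h1 := ih f g hf hg
    have h2 := ih (fun S => f (insert a S)) (fun S => g (insert a S))
      (fun S S' h => hf _ _ (Finset.insert_subset_insert a h))
      (fun S S' h => hg _ _ (Finset.insert_subset_insert a h))
    have h3 : FKG_E C p (fun S => f (insert a S)) ≤ FKG_E C p f :=
      FKG_mono C p hp hp1 _ _ (fun S => hf _ _ (Finset.subset_insert a S))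
    have h4 : FKG_E C p (fun S => g (insert a S)) ≤ FKG_E C p g :=
      FKG_mono C p hp hp1 _ _ (fun S => hg _ _ (Finset.subset_insert a S))
    have h5 : 0 ≤ 1 - p := by linarith
    have h6 : 0 ≤ p * (1 - p) * ((FKG_E C p f - FKG_E C p (fun S => f (insert a S))) *
        (FKG_E C p g - FKG_E C p (fun S => g (insert a S)))) :=
      mul_nonneg (mul_nonneg hp h5) (mul_nonneg (by linarith) (by linarith))
    have h7 := mul_le_mul_of_nonneg_left h1 h5
    have h8 := mul_le_mul_of_nonneg_left h2 hp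
    nlinarith [h6, h7, h8]

theorem FKG_sup {γ : Type} (p : ℝ) (g : Finset γ → ℝ) (T : Finset γ) :
    ∀ C : Finset γ, T ⊆ C → (∀ t ∈ T, ∀ S, g (insert t S) = g S) →
      FKG_E C p (fun S => (if T ⊆ S then 1 else 0) * g S) = p ^ T.card * FKG_E (C \ T) p g := by
  induction T using Finset.induction_on with
  | empty =>
    intro C _ _
    simp
  | insert t T ht ih =>
    intro C hC hg
    have htC : t ∈ C := hC (Finset.mem_insert_self t T)
    have h1 : insert t (C.erase t) = C := Finset.insert_erase htC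
    have h2 := FKG_insert (C.erase t) t (Finset.notMem_erase t C) p
      (fun S => (if insert t T ⊆ S then 1 else 0) * g S)
    rw [h1] at h2
    have h3 : FKG_E (C.erase t) p (fun S => (if insert t T ⊆ S then 1 else 0) * g S) = 0 := by
      refine (FKG_congr _ _ _ (fun _ => 0) ?_).trans (FKG_zero (C.erase t) p)
      intro S hS
      have h4 : ¬ insert t T ⊆ S := fun h =>
        Finset.notMem_erase t C (hS (h (Finset.mem_insert_self t T)))
      rw [if_neg h4, zero_mul]
    have h5 : FKG_E (C.erase t) p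
        (fun S => (if insert t T ⊆ insert t S then 1 else 0) * g (insert t S)) =
        FKG_E (C.erase t) p (fun S => (if T ⊆ S then 1 else 0) * g S) := by
      apply FKG_congr
      intro S _
      rw [hg t (Finset.mem_insert_self t T)]
      have h6 : insert t T ⊆ insert t S ↔ T ⊆ S := by
        constructor
        · intro h x hx
          have h7 := h (Finset.mem_insert_of_mem hx)
          rcases Finset.mem_insert.1 h7 with h8 | h8
          · exact absurd (h8 ▸ hx) ht
          · exact h8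
        · exact fun h => Finset.insert_subset_insert t h
      simp only [h6]
    rw [h2, h3, h5, ih (C.erase t) ?_ (fun s hs => hg s (Finset.mem_insert_of_mem hs)),
      Finset.card_insert_of_notMem ht, pow_succ]
    · have h9 : C.erase t \ T = C \ insert t T := by
        ext x
        simp only [Finset.mem_sdiff, Finset.mem_erase, Finset.mem_insert]
        tauto
      rw [h9]
      ring
    · intro x hx
      exact Finset.mem_erase.2 ⟨fun h => ht (h ▸ hx), hC (Finset.mem_insert_of_mem hx)⟩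

theorem FKG_one {γ : Type} (C : Finset γ) (p : ℝ) : FKG_E C p (fun _ => 1) = 1 := by
  induction C using Finset.induction_on with
  | empty => rw [FKG_empty]
  | insert a C ha ih =>
    rw [FKG_insert C a ha, ih]
    ring

theorem FKG_not {γ : Type} (C F : Finset γ) (hF : F ⊆ C) (p : ℝ) :
    FKG_E C p (fun S => if F ⊆ S then 0 else 1) = 1 - p ^ F.card := by
  have h1 := FKG_sup p (fun _ => 1) F C hF (fun _ _ _ => rfl)
  rw [FKG_one, mul_one] at h1
  have h2 : FKG_E C p (fun S => (if F ⊆ S then 1 else 0) * 1) +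
      FKG_E C p (fun S => if F ⊆ S then 0 else 1) = FKG_E C p (fun _ => 1) := by
    unfold FKG_E
    rw [← Finset.sum_add_distrib]
    apply Finset.sum_congr rfl
    intro S _
    by_cases h : F ⊆ S
    · simp [h]
    · simp [h]
  rw [h1, FKG_one] at h2
  linarith

theorem FKG_prod {γ : Type} (C : Finset γ) (p : ℝ) (hp : 0 ≤ p) (hp1 : p ≤ 1)
    (𝓕 : Finset (Finset γ)) : (∀ F ∈ 𝓕, F ⊆ C) →
    ∏ F ∈ 𝓕, (1 - p ^ F.card) ≤ FKG_E C p (fun S => if ∀ F ∈ 𝓕, ¬ F ⊆ S then 1 else 0) := by
  induction 𝓕 using Finset.induction_on with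
  | empty =>
    intro _
    simp [FKG_one]
  | insert F 𝓕 hF ih =>
    intro h
    rw [Finset.prod_insert hF]
    have h1 := ih (fun F' hF' => h F' (Finset.mem_insert_of_mem hF'))
    have h2 := FKG_not C F (h F (Finset.mem_insert_self F 𝓕)) p
    have h3 := FKG_harris C p hp hp1 (fun S => if F ⊆ S then 0 else 1)
      (fun S => if ∀ F ∈ 𝓕, ¬ F ⊆ S then 1 else 0) (by
        intro S S' hS
        by_cases h4 : F ⊆ S
        · simp [h4, h4.trans hS]
        · by_cases h5 : F ⊆ S'
          · simp [h4, h5]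
          · simp [h4, h5]) (by
        intro S S' hS
        by_cases h4 : ∀ F ∈ 𝓕, ¬ F ⊆ S'
        · have h5 : ∀ F ∈ 𝓕, ¬ F ⊆ S := fun F' hF' h6 => h4 F' hF' (h6.trans hS)
          rw [if_pos h4, if_pos h5]
        · rw [if_neg h4]
          split_ifs
          · exact zero_le_one
          · exact le_rfl)
    rw [h2] at h3
    have h6 : 0 ≤ 1 - p ^ F.card := by
      have := pow_le_one₀ (n := F.card) hp hp1
      linarith
    refine (mul_le_mul_of_nonneg_left h1 h6).trans (h3.trans (le_of_eq ?_))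
    apply FKG_congr
    intro S _
    by_cases h7 : F ⊆ S
    · have h8 : ¬ ∀ F' ∈ insert F 𝓕, ¬ F' ⊆ S := fun h9 => h9 F (Finset.mem_insert_self F 𝓕) h7
      rw [if_pos h7, if_neg h8, zero_mul]
    · rw [if_neg h7, one_mul]
      have h8 : (∀ F' ∈ insert F 𝓕, ¬ F' ⊆ S) ↔ ∀ F' ∈ 𝓕, ¬ F' ⊆ S := by
        constructor
        · exact fun h9 F' hF' => h9 F' (Finset.mem_insert_of_mem hF')
        · intro h9 F' hF'
          rcases Finset.mem_insert.1 hF' with rfl | h10
          · exact h7
          · exact h9 F' h10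
      simp only [h8]

theorem FKG : FKG_stmt := by
  intro γ C T p 𝓕 hp hp1 hT hF
  rw [FKG_Pr]
  refine le_trans ?_ (le_of_eq (FKG_congr C p
    (fun S => (if T ⊆ S then 1 else 0) * (if ∀ F ∈ 𝓕, ¬ F ⊆ S then 1 else 0)) _ (by
    intro S _
    by_cases h2 : T ⊆ S
    · by_cases h3 : ∀ F ∈ 𝓕, ¬ F ⊆ S
      · have hc : T ⊆ S ∧ ∀ F ∈ 𝓕, ¬ F ⊆ S := ⟨h2, h3⟩
        rw [if_pos h2, if_pos h3, if_pos hc, one_mul]
      · have hc : ¬ (T ⊆ S ∧ ∀ F ∈ 𝓕, ¬ F ⊆ S) := fun h => h3 h.2
        rw [if_neg h3, if_neg hc, mul_zero]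
    · have hc : ¬ (T ⊆ S ∧ ∀ F ∈ 𝓕, ¬ F ⊆ S) := fun h => h2 h.1
      rw [if_neg h2, if_neg hc, zero_mul])))
  rw [FKG_sup p _ T C hT]
  · apply mul_le_mul_of_nonneg_left _ (pow_nonneg hp _)
    exact FKG_prod (C \ T) p hp hp1 𝓕 hF
  · intro t ht S
    have h2 : (∀ F ∈ 𝓕, ¬ F ⊆ insert t S) ↔ ∀ F ∈ 𝓕, ¬ F ⊆ S := by
      constructor
      · exact fun h F hF' h3 => h F hF' (h3.trans (Finset.subset_insert t S))
      · intro h F hF' h3
        apply h F hF'
        intro x hx
        rcases Finset.mem_insert.1 (h3 hx) with h4 | h4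
        · have h5 := hF F hF' hx
          rw [h4] at h5
          exact absurd ht (Finset.mem_sdiff.1 h5).2
        · exact h4
    simp only [h2]

end Pool.Agent.DSW
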